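import Mathlib

set_option autoImplicit false

namespace Pool.Agent.Results.MP_b1a016_al.Periodic

/-- The closure of the subgroup generated by all closed non-normal subgroups. -/
def STilde (G : Type*) [Group G] [TopologicalSpace G] [IsTopologicalGroup G] : Subgroup G :=
  (sSup {L : Subgroup G | IsClosed (L : Set G) ∧ ¬ L.Normal}).topologicalClosure

theorem closure_le {G : Type*} [Group G] [TopologicalSpace G] [IsTopologicalGroup G] (x y : G)
    (s : Set G) (hs : IsClosed s) (h : ∀ k : ℤ, x ^ k ∈ s)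
    (hy : y ∈ (Subgroup.zpowers x).topologicalClosure) : y ∈ s :=
  closure_minimal (by rintro _ ⟨k, rfl⟩; exact h k) hs hy

/-- Every non-abelian pro-`p` Cappitt group is periodic. -/
theorem result (p : ℕ) [Fact p.Prime] (G : Type*) [Group G] [TopologicalSpace G]
    [IsTopologicalGroup G] [CompactSpace G] [T2Space G] [TotallyDisconnectedSpace G]
    (hp : ∀ U : OpenNormalSubgroup G, IsPGroup p (G ⧸ U.toSubgroup))
    (hC : STilde G ≠ ⊤) (hna : ∃ a b : G, a * b ≠ b * a) (t : G) : IsOfFinOrder t := by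
  have hM : IsClosed (STilde G : Set G) := Subgroup.isClosed_topologicalClosure _
  have hN : ∀ x ∉ STilde G, (Subgroup.zpowers x).topologicalClosure.Normal := by
    intro x hx
    by_contra h
    exact hx (Subgroup.le_topologicalClosure _ (le_sSup (s := {L : Subgroup G |
      IsClosed (L : Set G) ∧ ¬ L.Normal}) ⟨Subgroup.isClosed_topologicalClosure _, h⟩
      (Subgroup.le_topologicalClosure _ (Subgroup.mem_zpowers x))))
  have hself : ∀ x : G, x ∈ (Subgroup.zpowers x).topologicalClosure :=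
    fun x => Subgroup.le_topologicalClosure _ (Subgroup.mem_zpowers x)
  obtain ⟨a, ha, b, hb, hab⟩ : ∃ a ∉ STilde G, ∃ b ∉ STilde G, ¬ Commute a b := by
    by_contra h
    push Not at h
    obtain ⟨w, hw⟩ : ∃ w, w ∉ STilde G := by
      by_contra h1
      push Not at h1
      exact hC (eq_top_iff.2 fun x _ => h1 x)
    have step : ∀ g : G, (∀ a ∉ STilde G, Commute g a) → ∀ b, Commute g b := by
      intro g hg b
      by_cases hb : b ∈ STilde G
      · have := (hg (b * w) fun h1 => hw ((Subgroup.mul_mem_cancel_left _ hb).1 h1)).mul_right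
          (hg w hw).inv_right
        simpa using this
      · exact hg b hb
    obtain ⟨a, b, hab⟩ := hna
    exact hab (step a (fun c hc => (step c (h c hc) a).symm) b)
  obtain ⟨U₀, hU₀⟩ := ProfiniteGrp.exist_openNormalSubgroup_sub_open_nhds_of_one
    (U := {b * a * b⁻¹ * a⁻¹}ᶜ ∩ (fun u => a * u) ⁻¹' (STilde G : Set G)ᶜ)
    (isOpen_compl_singleton.inter (hM.isOpen_compl.preimage (continuous_const_mul a)))
    ⟨fun h => hab (by
      rw [Set.mem_singleton_iff, eq_comm, mul_inv_eq_one, mul_inv_eq_iff_eq_mul] at h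
      exact h.symm), by simpa using ha⟩
  obtain ⟨N, hNU⟩ : ∃ N : ℕ, ∀ g : G, g ^ p ^ N ∈ U₀.toSubgroup := by
    have : Finite (G ⧸ U₀.toSubgroup) := Subgroup.quotient_finite_of_isOpen _ U₀.isOpen
    obtain ⟨N, hN⟩ := IsPGroup.iff_card.1 (hp U₀)
    refine ⟨N, fun g => ?_⟩
    rw [← QuotientGroup.eq_one_iff, QuotientGroup.mk_pow, ← hN, pow_card_eq_one']
  have key : ∀ x ∉ STilde G, b * x * b⁻¹ * x⁻¹ ∉ U₀.toSubgroup → x ^ p ^ (2 * N) = 1 := by
    intro x hx hc
    by_contra hne
    obtain ⟨V, hV⟩ := ProfiniteGrp.exist_openNormalSubgroup_sub_open_nhds_of_one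
      (U := {x ^ p ^ (2 * N)}ᶜ) isOpen_compl_singleton (fun h => hne h.symm)
    let U := V ⊓ U₀
    let π := QuotientGroup.mk' U.toSubgroup
    have hπ : ∀ g, π g = 1 ↔ g ∈ U.toSubgroup := fun g => QuotientGroup.eq_one_iff g
    obtain ⟨k, hk⟩ : ∃ k : ℤ, π (b * x * b⁻¹) = π x ^ k := by
      have h1 := (hN x hx).conj_mem x (hself x) b
      obtain ⟨y, hy1, k, rfl⟩ := mem_closure_iff.1 h1
        ((fun u => (b * x * b⁻¹)⁻¹ * u) ⁻¹' (U.toSubgroup : Set G))
        (U.isOpen.preimage (continuous_const_mul _))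
        (by rw [Set.mem_preimage, inv_mul_cancel]; exact one_mem _)
      refine ⟨k, ?_⟩
      rw [← map_zpow]
      exact QuotientGroup.eq.2 hy1
    have h2 : (b * x * b⁻¹ * x⁻¹) * b = b * (b * x * b⁻¹ * x⁻¹) := by
      refine closure_le b _ {g | g * b = b * g}
        (isClosed_eq (continuous_mul_const b) (continuous_const_mul b))
        (fun k => (Commute.zpow_self b k).eq) ?_
      have := mul_mem (hself b) ((hN b hb).conj_mem _ (inv_mem (hself b)) x)
      simpa only [mul_assoc] using this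
    have h3 : π (b * x * b⁻¹ * x⁻¹) = π x ^ (k - 1) := by
      rw [map_mul, hk, map_inv, zpow_sub, zpow_one]
    have h4 : π x ^ ((k - 1) ^ 2) = 1 := by
      have h5 : π b * π x ^ (k - 1) * (π b)⁻¹ = π x ^ (k - 1) := by
        rw [← h3, ← map_mul, ← h2, map_mul, mul_inv_cancel_right]
      rw [← conj_zpow, ← map_mul, ← map_inv, ← map_mul, hk, ← zpow_mul] at h5
      rw [show (k - 1) ^ 2 = k * (k - 1) - (k - 1) by ring, zpow_sub, h5, mul_inv_cancel]
    obtain ⟨n, hn⟩ := IsPGroup.iff_orderOf.1 (hp U) (π x)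
    have h6 : ((p ^ n : ℕ) : ℤ) ∣ (k - 1) ^ 2 := by
      rw [← hn]; exact orderOf_dvd_iff_zpow_eq_one.2 h4
    rcases le_total n (2 * N) with h | h
    · have h7 : π (x ^ p ^ (2 * N)) = 1 := by
        rw [map_pow, ← orderOf_dvd_iff_pow_eq_one, hn]
        exact pow_dvd_pow p h
      exact hV ((hπ _).1 h7).1 rfl
    · have h7 : ((p : ℤ) ^ N) ^ 2 ∣ (k - 1) ^ 2 := by
        rw [← pow_mul, mul_comm]
        exact (pow_dvd_pow _ h).trans (by exact_mod_cast h6)
      obtain ⟨l, hl⟩ := (Int.pow_dvd_pow_iff (by norm_num)).1 h7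
      apply hc
      have h8 : x ^ (k - 1) ∈ U₀.toSubgroup := by
        rw [hl, zpow_mul]
        refine zpow_mem ?_ l
        exact_mod_cast hNU x
      rw [← map_zpow] at h3
      have h9 : (b * x * b⁻¹ * x⁻¹)⁻¹ * x ^ (k - 1) ∈ U₀.toSubgroup :=
        (QuotientGroup.eq.1 h3).2
      exact inv_mem_iff.1 ((Subgroup.mul_mem_cancel_right _ h8).1 h9)
  have h1 := key a ha fun h => (hU₀ h).1 rfl
  have h2 := key (a * t ^ p ^ N) (hU₀ (hNU t)).2 fun h => by
    refine (hU₀ (?_ : b * a * b⁻¹ * a⁻¹ ∈ U₀.toSubgroup)).1 rfl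
    rw [← QuotientGroup.eq_one_iff] at h ⊢
    have h0 := (QuotientGroup.eq_one_iff _).2 (hNU t)
    simp only [QuotientGroup.mk_mul, QuotientGroup.mk_inv, h0, mul_one] at h ⊢
    exact h
  have := hN a ha
  have h3 : (t ^ p ^ N) ^ p ^ (2 * N) ∈ (Subgroup.zpowers a).topologicalClosure := by
    rw [← QuotientGroup.eq_one_iff]
    have h4 := congrArg (QuotientGroup.mk' (Subgroup.zpowers a).topologicalClosure) h2
    rw [map_pow, map_mul, QuotientGroup.mk'_apply, (QuotientGroup.eq_one_iff a).2 (hself a),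
      one_mul, map_one, ← map_pow] at h4
    exact h4
  have h5 := closure_le a _ {y | y ^ p ^ (2 * N) = 1}
    (isClosed_eq (continuous_pow _) continuous_const)
    (fun k => by
      change (a ^ k) ^ _ = 1
      rw [← zpow_natCast, ← zpow_mul, mul_comm, zpow_mul, zpow_natCast, h1, one_zpow]) h3
  have hp0 : 0 < p := (Fact.out : p.Prime).pos
  refine isOfFinOrder_iff_pow_eq_one.2 ⟨p ^ N * p ^ (2 * N) * p ^ (2 * N), by positivity, ?_⟩
  rw [pow_mul, pow_mul]
  exact h5

end Pool.Agent.Results.MP_b1a016_al.Periodic
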